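import Mathlib
import Pool.Agent.Lib.MP_1efffb_co.Ext

set_option autoImplicit false

namespace Pool.Agent.Results.MP_1efffb_co.FailsFromThree

open Matrix Finset Pool.Agent.Lib.MP_1efffb_co

/-- The number of mismatches of the extra point with a column, in the rows from the fourth on. -/
lemma mismatch_le {m : ℕ} {K : Matrix (Fin m) (Fin m) ℤ} (hK : IsNormalizedHadamard K)
    (j : Fin (m * 4)) :
    #{i : Fin (m * 4) | 3 ≤ i.val ∧ X i ≠ ext K i j} ≤ 2 * m := by
  obtain ⟨⟨q, w⟩, rfl⟩ := finProdFinEquiv.surjective j
  have key : (#{i : Fin (m * 4) | 3 ≤ i.val ∧ X i ≠ ext K i (finProdFinEquiv (q, w))} : ℤ)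
      ≤ ∑ p : Fin m, (2 - K p q) := by
    rw [Finset.card_filter]
    push_cast
    rw [← finProdFinEquiv.sum_comp, Fintype.sum_prod_type]
    refine Finset.sum_le_sum fun p _ => ?_
    have hb := block_bound w (K p q) (entry_eq hK.1 p q) (decide (p.val ≠ 0)) (by
      intro h
      have h0 : p.val = 0 := by simpa using h
      exact hK.2.1 p q h0)
    rw [Finset.card_filter] at hb
    push_cast at hb
    refine le_trans (le_of_eq ?_) hb
    refine Finset.sum_congr rfl fun u _ => ?_
    have hu := u.isLt
    have e1 : (3 ≤ (finProdFinEquiv (p, u)).val) ↔ (decide (p.val ≠ 0) = false → u = 3) := by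
      simp only [finProdFinEquiv_apply_val, ne_eq, decide_not, Bool.not_eq_false',
        decide_eq_true_eq]
      constructor
      · intro h hp
        apply Fin.ext
        simp
        omega
      · intro h
        by_cases hp : p.val = 0
        · have := h hp
          subst this
          simp
        · omega
    have e2 : X (finProdFinEquiv (p, u)) ≠ ext K (finProdFinEquiv (p, u)) (finProdFinEquiv (q, w))
        ↔ (if u = 0 then (-1 : ℤ) else 1) ≠ S4 u w * K p q *
          (if decide (p.val ≠ 0) = true ∧ w ≠ 0 then -1 else 1) := by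
      rw [X_apply, ext_apply]
      unfold tw
      simp
    rw [if_congr (and_congr e1 e2) rfl rfl]
  have hsum : 0 ≤ ∑ p : Fin m, K p q := by
    by_cases hq : q.val = 0
    · refine Finset.sum_nonneg fun p _ => ?_
      rw [hK.2.2 p q hq]
      norm_num
    · have h0 : 0 < m := lt_of_le_of_lt (Nat.zero_le _) q.isLt
      have h := sum_cols hK.1 (⟨0, h0⟩ : Fin m) q
      rw [if_neg (by intro h'; apply hq; rw [← h'])] at h
      have h2 : ∑ p : Fin m, K p q = ∑ i, K i ⟨0, h0⟩ * K i q := by
        refine Finset.sum_congr rfl fun i _ => ?_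
        rw [hK.2.2 i ⟨0, h0⟩ rfl, one_mul]
      rw [h2, h]
  rw [Finset.sum_sub_distrib] at key
  simp only [sum_const, card_univ, Fintype.card_fin, nsmul_eq_mul] at key
  have : (#{i : Fin (m * 4) | 3 ≤ i.val ∧ X i ≠ ext K i (finProdFinEquiv (q, w))} : ℤ)
      ≤ 2 * (m : ℤ) := by linarith
  exact_mod_cast this

/-- For every `r ≥ 3` there are normalized Hadamard matrices of arbitrarily large order `n` such
that the set of columns of the matrix with the first `r` rows deleted is not diametrically
maximal in the cube `Q_{n-r}`. -/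
theorem result : ∀ r : ℕ, 3 ≤ r → ∀ n₀ : ℕ, ∃ n : ℕ, n₀ ≤ n ∧ ∃ H : Matrix (Fin n) (Fin n) ℤ,
    IsNormalizedHadamard H ∧ ¬ DiametricallyMaximal (columnSet r H) := by
  intro r hr n₀
  obtain ⟨K, hK⟩ := exists_normalized (r + n₀)
  generalize hm : 4 ^ (r + n₀) = m at K hK
  have hrm : r + n₀ < m := by rw [← hm]; exact Nat.lt_pow_self (by norm_num)
  have h2r : 2 ^ r < m * 4 := by
    have h1 : 2 ^ r ≤ 4 ^ (r + n₀) :=
      le_trans (Nat.pow_le_pow_left (by norm_num) r) (Nat.pow_le_pow_right (by norm_num) (by omega))
    omega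
  have hm0 : m ≠ 0 := by omega
  have hH := ext_isNormalized hm0 hK
  refine ⟨m * 4, by omega, ext K, hH, ?_⟩
  intro hmax
  -- the extra point
  let x : Fin (m * 4 - r) → ℤ := fun i => X (m := m) ⟨r + i.val, by have := i.isLt; omega⟩
  have hxc : InCube x := fun i => X_eq _
  have hdist : ∀ j, hammingDist x (fun i => deleteRows r (ext K) i j)
      = #{i : Fin (m * 4) | r ≤ i.val ∧ X i ≠ ext K i j} := fun j =>
    hammingDist_trunc r X (fun i => ext K i j)
  have hdist_le : ∀ j, hammingDist x (fun i => deleteRows r (ext K) i j) ≤ 2 * m := by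
    intro j
    rw [hdist]
    refine le_trans (Finset.card_le_card ?_) (mismatch_le hK j)
    intro i hi
    simp only [mem_filter, mem_univ, true_and] at hi ⊢
    exact ⟨by omega, hi.2⟩
  have hxA : x ∉ columnSet r (ext K) := by
    rw [mem_columnSet]
    rintro ⟨j, hj⟩
    have h0 : hammingDist x (fun i => deleteRows r (ext K) i j) = 0 := by
      rw [hj]; simp
    rw [hdist, Finset.card_eq_zero] at h0
    obtain ⟨⟨q, w⟩, rfl⟩ := finProdFinEquiv.surjective j
    have hrlt : r < m := by omega
    obtain ⟨u, hu⟩ := block_exists w (K ⟨r, hrlt⟩ q) (entry_eq hK.1 _ _)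
    have : finProdFinEquiv (⟨r, hrlt⟩, u) ∈ ({i : Fin (m * 4) | r ≤ i.val ∧
        X i ≠ ext K i (finProdFinEquiv (q, w))} : Finset (Fin (m * 4))) := by
      simp only [mem_filter, mem_univ, true_and]
      refine ⟨?_, ?_⟩
      · simp only [finProdFinEquiv_apply_val]
        omega
      · rw [X_apply, ext_apply]
        have e : tw (⟨r, hrlt⟩ : Fin m).val w.val = if w ≠ 0 then -1 else 1 := by
          unfold tw
          have : (r ≠ 0) := by omega
          simp [this]
        rw [e]
        exact hu
    rw [h0] at this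
    simp at this
  have hlt := hmax.2 x hxc hxA
  have hup : diam (insert x (columnSet r (ext K))) ≤ 2 * m := by
    refine diam_le ?_
    intro y hy z hz
    rw [Finset.mem_insert] at hy hz
    rcases hy with rfl | hy <;> rcases hz with rfl | hz
    · simp
    · obtain ⟨j, rfl⟩ := mem_columnSet.mp hz
      exact hdist_le j
    · obtain ⟨j, rfl⟩ := mem_columnSet.mp hy
      rw [hammingDist_comm]
      exact hdist_le j
    · obtain ⟨j, rfl⟩ := mem_columnSet.mp hy
      obtain ⟨j', rfl⟩ := mem_columnSet.mp hz
      have := two_mul_hammingDist_cols_le hH.1 r j j'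
      omega
  have hlow : 2 * m ≤ diam (columnSet r (ext K)) := by
    -- two columns which agree in the first `r` rows
    have hcard : Fintype.card (Fin r → Bool) < Fintype.card (Fin (m * 4)) := by
      simpa using h2r
    obtain ⟨j, j', hjj, hf⟩ := Fintype.exists_ne_map_eq_of_card_lt
      (fun (j : Fin (m * 4)) (i : Fin r) =>
        decide (ext K ⟨i.val, by have := i.isLt; omega⟩ j = 1)) hcard
    have hagree : ∀ i : Fin (m * 4), i.val < r → ext K i j = ext K i j' := by
      intro i hi
      have h := congrFun hf ⟨i.val, hi⟩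
      simp only [decide_eq_decide] at h
      have h' : ext K i j = 1 ↔ ext K i j' = 1 := h
      rcases entry_eq hH.1 i j with h1 | h1 <;> rcases entry_eq hH.1 i j' with h2 | h2
      · rw [h1, h2]
      · rw [h2] at h'; exact absurd (h'.mp h1) (by norm_num)
      · rw [h1] at h'; exact absurd (h'.mpr h2) (by norm_num)
      · rw [h1, h2]
    have h1 : hammingDist (fun i => deleteRows r (ext K) i j)
        (fun i => deleteRows r (ext K) i j') = 2 * m := by
      rw [hammingDist_cols]
      have h2 := two_mul_card_cols hH.1 hjj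
      have h3 : ({i : Fin (m * 4) | r ≤ i.val ∧ ext K i j ≠ ext K i j'} : Finset _)
          = ({i : Fin (m * 4) | ext K i j ≠ ext K i j'} : Finset _) := by
        ext i
        simp only [mem_filter, mem_univ, true_and, and_iff_right_iff_imp]
        intro h
        by_contra hlt
        exact h (hagree i (by omega))
      rw [h3]
      omega
    rw [← h1]
    exact le_diam (mem_columnSet.mpr ⟨j, rfl⟩) (mem_columnSet.mpr ⟨j', rfl⟩)
  omega

end Pool.Agent.Results.MP_1efffb_co.FailsFromThree
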