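import Mathlib
import Pool.Agent.Lib.MP_1efffb_co.Basic

set_option autoImplicit false

namespace Pool.Agent.Results.MP_1efffb_co.HoldsForTwo

open Matrix Finset Pool.Agent.Lib.MP_1efffb_co

/-- A sign vector all of whose inner products with the columns of a normalized Hadamard matrix
are nonnegative, and whose first entry is `1`, is a column. -/
lemma eq_column {n : ℕ} (hn : 0 < n) {H : Matrix (Fin n) (Fin n) ℤ} (hH : IsNormalizedHadamard H)
    (z : Fin n → ℤ) (hz : ∀ i, z i = 1 ∨ z i = -1) (hz0 : z ⟨0, hn⟩ = 1)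
    (hnn : ∀ j, 0 ≤ ∑ i, z i * H i j) : ∃ j, ∀ i, z i = H i j := by
  set v : Fin n → ℤ := fun j => ∑ i, z i * H i j with hv
  have hsum : ∑ j, v j = n := by
    rw [hv]
    simp only
    rw [Finset.sum_comm]
    simp only [← Finset.mul_sum]
    have h1 : ∀ i, ∑ j, H i j = if i = ⟨0, hn⟩ then (n : ℤ) else 0 := by
      intro i
      rw [← sum_rows hH.1 i ⟨0, hn⟩]
      refine Finset.sum_congr rfl fun j _ => ?_
      rw [hH.2.1 ⟨0, hn⟩ j rfl, mul_one]
    simp only [h1, mul_ite, mul_zero, Finset.sum_ite_eq', mem_univ, if_true, hz0, one_mul]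
  have hsq : ∑ j, v j * v j = n * n := by
    have h1 : ∀ j, v j * v j = ∑ i, ∑ i', (z i * z i') * (H i j * H i' j) := by
      intro j
      rw [hv]
      simp only
      rw [Finset.sum_mul_sum]
      refine Finset.sum_congr rfl fun i _ => Finset.sum_congr rfl fun i' _ => ?_
      ring
    simp only [h1]
    rw [Finset.sum_comm]
    have h2 : ∀ i, ∑ j, ∑ i', (z i * z i') * (H i j * H i' j) = (n : ℤ) := by
      intro i
      rw [Finset.sum_comm]
      simp only [← Finset.mul_sum, sum_rows hH.1, mul_ite, mul_zero, Finset.sum_ite_eq, mem_univ,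
        if_true]
      rcases hz i with h | h <;> rw [h] <;> norm_num
    simp only [h2, sum_const, card_univ, Fintype.card_fin, nsmul_eq_mul]
  have hle : ∀ j, v j ≤ n := by
    intro j
    have h1 : ∑ i, z i * H i j ≤ ∑ _i : Fin n, (1 : ℤ) := by
      refine Finset.sum_le_sum fun i _ => ?_
      rcases hz i with h | h <;> rcases entry_eq hH.1 i j with h' | h' <;> rw [h, h'] <;> norm_num
    simpa using h1
  have hzero : ∀ j, v j * (n - v j) = 0 := by
    have h1 : ∑ j, v j * (n - v j) = 0 := by
      have : ∀ j, v j * (n - v j) = v j * n - v j * v j := fun j => by ring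
      simp only [this]
      rw [Finset.sum_sub_distrib, ← Finset.sum_mul, hsum, hsq]
      ring
    have h2 : ∀ j ∈ (Finset.univ : Finset (Fin n)), 0 ≤ v j * (n - v j) := fun j _ =>
      mul_nonneg (hnn j) (by have := hle j; linarith)
    intro j
    exact (Finset.sum_eq_zero_iff_of_nonneg h2).mp h1 j (mem_univ j)
  obtain ⟨j, hj⟩ : ∃ j, v j ≠ 0 := by
    by_contra hcon
    push Not at hcon
    have : ∑ j, v j = 0 := Finset.sum_eq_zero fun j _ => hcon j
    rw [hsum] at this
    have : n = 0 := by exact_mod_cast this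
    omega
  have hvn : v j = n := by
    rcases mul_eq_zero.mp (hzero j) with h | h
    · exact absurd h hj
    · linarith
  refine ⟨j, ?_⟩
  have h3 : ∑ i, (1 - z i * H i j) = 0 := by
    rw [Finset.sum_sub_distrib]
    simp only [sum_const, card_univ, Fintype.card_fin, nsmul_eq_mul, mul_one]
    have : ∑ i, z i * H i j = n := hvn
    rw [this]; ring
  have h4 : ∀ i ∈ (Finset.univ : Finset (Fin n)), 0 ≤ 1 - z i * H i j := by
    intro i _
    rcases hz i with h | h <;> rcases entry_eq hH.1 i j with h' | h' <;> rw [h, h'] <;> norm_num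
  intro i
  have h5 := (Finset.sum_eq_zero_iff_of_nonneg h4).mp h3 i (mem_univ i)
  rcases hz i with h | h <;> rcases entry_eq hH.1 i j with h' | h' <;> rw [h, h'] at h5 ⊢ <;>
    norm_num at h5

/-- For `r = 2` the statement holds for every order `n ≥ 2`. -/
theorem result : ∀ n : ℕ, 2 ≤ n → ∀ H : Matrix (Fin n) (Fin n) ℤ, IsNormalizedHadamard H →
    DiametricallyMaximal (columnSet 2 H) := by
  intro n hn H hH
  refine ⟨⟨_, mem_columnSet.mpr ⟨⟨0, by omega⟩, rfl⟩⟩, ?_⟩
  intro x hx hxA
  by_contra hcon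
  push Not at hcon
  apply hxA
  rcases Nat.lt_or_ge 2 n with h2n | h2n
  swap
  · -- the degenerate case `n = 2`
    have : n = 2 := by omega
    subst this
    rw [mem_columnSet]
    refine ⟨0, ?_⟩
    funext i
    exact i.elim0
  have h4 : 4 ∣ n := by
    have := hH.1.four_dvd_card (by simpa using h2n)
    simpa using this
  -- distances of `x` to the columns
  have hdist : ∀ j, 2 * hammingDist x (fun i => deleteRows 2 H i j) ≤ n := by
    intro j
    have h1 : hammingDist x (fun i => deleteRows 2 H i j) ≤ diam (insert x (columnSet 2 H)) :=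
      le_diam (Finset.mem_insert_self _ _)
        (Finset.mem_insert_of_mem (mem_columnSet.mpr ⟨j, rfl⟩))
    have h2 : diam (columnSet 2 H) ≤ n / 2 := by
      refine diam_le ?_
      intro y hy z hz
      obtain ⟨j, rfl⟩ := mem_columnSet.mp hy
      obtain ⟨j', rfl⟩ := mem_columnSet.mp hz
      have := two_mul_hammingDist_cols_le hH.1 2 j j'
      omega
    omega
  -- extension of `x` to a full vector
  let z : ℤ → Fin n → ℤ := fun e i => if h : i.val < 2 then (if i.val = 0 then 1 else e)
    else x ⟨i.val - 2, by have := i.isLt; omega⟩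
  have hn0 : 0 < n := by omega
  have hn1 : 1 < n := by omega
  -- inner products
  have hzx : ∀ e : ℤ, ∀ j, ∑ i, z e i * H i j = 1 + e * H ⟨1, hn1⟩ j
      + ((n : ℤ) - 2 - 2 * hammingDist x (fun i => deleteRows 2 H i j)) := by
    intro e j
    have h1 := two_mul_card_ne x (fun i => deleteRows 2 H i j) hx
      (fun i => entry_eq hH.1 _ _)
    have h2 : hammingDist x (fun i => deleteRows 2 H i j)
        = #{i | x i ≠ (fun i => deleteRows 2 H i j) i} := rfl
    rw [h2, h1]
    have h3 : ∑ i, z e i * H i j = ∑ i ∈ (univ.filter fun i : Fin n => i.val < 2), z e i * H i j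
        + ∑ i ∈ (univ.filter fun i : Fin n => ¬ i.val < 2), z e i * H i j :=
      (Finset.sum_filter_add_sum_filter_not _ _ _).symm
    rw [h3]
    have h4 : (univ.filter fun i : Fin n => i.val < 2) = {⟨0, hn0⟩, ⟨1, hn1⟩} := by
      ext i
      simp only [mem_filter, mem_univ, true_and, mem_insert, mem_singleton, Fin.ext_iff]
      omega
    rw [h4, Finset.sum_pair (by simp [Fin.ext_iff])]
    have h5 : ∑ i ∈ (univ.filter fun i : Fin n => ¬ i.val < 2), z e i * H i j
        = ∑ i, x i * deleteRows 2 H i j := by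
      symm
      refine Finset.sum_bij (fun i _ => (⟨2 + i.val, by have := i.isLt; omega⟩ : Fin n)) ?_ ?_ ?_ ?_
      · intro a _
        simp only [mem_filter, mem_univ, true_and]
        omega
      · intro a _ b _ h
        simp only [Fin.mk.injEq, Nat.add_left_cancel_iff] at h
        exact Fin.ext h
      · intro b hb
        simp only [mem_filter, mem_univ, true_and] at hb
        have hb2 := b.isLt
        exact ⟨⟨b.val - 2, by omega⟩, mem_univ _, Fin.ext (by simp; omega)⟩
      · intro a _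
        simp only [z, deleteRows]
        rw [dif_neg (by omega)]
        congr 2
        exact Fin.ext (by simp)
    rw [h5]
    have h6 : z e ⟨0, hn0⟩ = 1 := by simp [z]
    have h7 : z e ⟨1, hn1⟩ = e := by simp [z]
    rw [h6, h7, hH.2.1 ⟨0, hn0⟩ j rfl]
    have h8 : (Fintype.card (Fin (n - 2)) : ℤ) = (n : ℤ) - 2 := by
      rw [Fintype.card_fin]
      omega
    rw [h8]
    ring
  -- choose the sign so that the inner product with the first column is divisible by four
  obtain ⟨e, he, he4⟩ : ∃ e : ℤ, (e = 1 ∨ e = -1) ∧ (4 : ℤ) ∣ ∑ i, z e i * H i ⟨0, hn0⟩ := by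
    have hn4 : (4 : ℤ) ∣ (n : ℤ) := by exact_mod_cast h4
    rcases Int.even_or_odd (hammingDist x (fun i => deleteRows 2 H i ⟨0, hn0⟩) : ℤ) with h | h
    · refine ⟨1, Or.inl rfl, ?_⟩
      rw [hzx, hH.2.2 ⟨1, hn1⟩ ⟨0, hn0⟩ rfl]
      obtain ⟨c, hc⟩ := h
      rw [hc]
      omega
    · refine ⟨-1, Or.inr rfl, ?_⟩
      rw [hzx, hH.2.2 ⟨1, hn1⟩ ⟨0, hn0⟩ rfl]
      obtain ⟨c, hc⟩ := h
      rw [hc]
      omega
  have hzs : ∀ i, z e i = 1 ∨ z e i = -1 := by
    intro i
    by_cases h : i.val < 2
    · simp only [z, dif_pos h]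
      split_ifs
      · left; rfl
      · exact he
    · simp only [z, dif_neg h]
      exact hx _
  have hmod : ∀ j, (4 : ℤ) ∣ ∑ i, z e i * H i j := by
    intro j
    have hn4 : (4 : ℤ) ∣ (n : ℤ) := by exact_mod_cast h4
    have h1 : (4 : ℤ) ∣ ∑ i, (z e i * (H i j - 1) - (H i j - 1)) := by
      refine Finset.dvd_sum fun i _ => ?_
      rcases hzs i with h | h <;> rcases entry_eq hH.1 i j with h' | h' <;> rw [h, h'] <;> norm_num
    have h2 : (4 : ℤ) ∣ ∑ i, (H i j - 1) := by
      rw [Finset.sum_sub_distrib]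
      have h3 : ∑ i, H i j = ∑ i, H i j * H i ⟨0, hn0⟩ := by
        refine Finset.sum_congr rfl fun i _ => ?_
        rw [hH.2.2 i ⟨0, hn0⟩ rfl, mul_one]
      rw [h3, sum_cols hH.1]
      simp only [sum_const, card_univ, Fintype.card_fin, nsmul_eq_mul, mul_one]
      split_ifs
      · simp
      · simpa using hn4
    have h4' : ∑ i, z e i * H i j = ∑ i, (z e i * (H i j - 1) - (H i j - 1))
        + ∑ i, (H i j - 1) + ∑ i, z e i * H i ⟨0, hn0⟩ := by
      rw [← Finset.sum_add_distrib, ← Finset.sum_add_distrib]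
      refine Finset.sum_congr rfl fun i _ => ?_
      rw [hH.2.2 i ⟨0, hn0⟩ rfl]
      ring
    rw [h4']
    exact dvd_add (dvd_add h1 h2) he4
  have hnn : ∀ j, 0 ≤ ∑ i, z e i * H i j := by
    intro j
    have h1 := hzx e j
    have h2 := hdist j
    have h3 : 1 + e * H ⟨1, hn1⟩ j ≥ 0 := by
      rcases he with h | h <;> rcases entry_eq hH.1 ⟨1, hn1⟩ j with h' | h' <;> rw [h, h'] <;>
        norm_num
    have h4 : -2 ≤ ∑ i, z e i * H i j := by
      rw [h1]
      have : (2 : ℤ) * (hammingDist x (fun i => deleteRows 2 H i j) : ℤ) ≤ n := by exact_mod_cast h2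
      linarith
    have h5 := hmod j
    omega
  obtain ⟨j, hj⟩ := eq_column hn0 hH (z e) hzs (by simp [z]) hnn
  rw [mem_columnSet]
  refine ⟨j, ?_⟩
  funext i
  have hi := i.isLt
  have h1 := hj ⟨2 + i.val, by omega⟩
  simp only [deleteRows]
  rw [← h1]
  simp only [z]
  rw [dif_neg (by omega)]
  congr 1
  exact Fin.ext (by simp)

end Pool.Agent.Results.MP_1efffb_co.HoldsForTwo
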